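import Pool.Agent.Helper79.BKH.Group
import Pool.Agent.Helper79.BKH.DefectRel
import Pool.Agent.BK.Reduction
import Pool.Agent.BK.H1Relation

/-!
If the order of vanishing formula of Bloch and Kato holds up to a bounded error over the subfields
of a Galois extension, then it holds exactly for almost all the Artin twists: a Bessel inequality
for the defects.
-/

open scoped Pointwise NumberField
open Polynomial IsDedekindDomain

namespace Pool.Agent.Results.MP_ec4e4b_nt.BoundedDefect

open Pool.BK

/-- Let `V` be a system of representations of the Galois group of the number field `K`, `p` a prime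
number, `M / K` a finite Galois extension with Galois group `Γ` and `C` a natural number. Suppose
that for every field `L` between `K` and `M` the order of vanishing formula at `p` for the
restriction of `V` to `L` holds up to an error (defect) `D`, and that `|D| ≤ C` if the Galois group
of `M / L` is cyclic. Let `θ j` be Artin representations of `Γ` with pairwise orthogonal characters
such that `n j` times the character of `θ j` is an integral combination of permutation characters
of `Γ` (`n j = |Γ|` is possible by Artin's theorem). Then the formula for the twist of `V` by `θ j`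
(for the power `n j` of the L-function) has a defect `D j`, and the sum of
`(D j / n j) ^ 2 / ⟨θ j, θ j⟩` is at most the square of `C ∏ (q + 1) / (q - 1)`, the product over
the prime divisors `q` of the exponent of `Γ`. For instance, if `Γ` is elementary abelian of order
`2 ^ k`, then the formula holds exactly for the twists of `V` by all but at most `9 C ^ 2` of the
`2 ^ k` quadratic characters of `Γ`. -/
theorem result (K : Type) [Field K] [NumberField K] (Ω : Type) [Field Ω] [Algebra K Ω]
    [IsAlgClosed Ω] [Algebra.IsAlgebraic K Ω] (V : LSystem (Ω ≃ₐ[K] Ω)) {p : ℕ} [Fact p.Prime]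
    (B : PeriodData (Ω ≃ₐ[K] Ω) (𝓞 Ω) p) (M : IntermediateField K Ω) [NumberField M] [Normal K M]
    [Fintype (M ≃ₐ[K] M)] (C : ℕ)
    (h : ∀ (L : IntermediateField K Ω) [NumberField L], L ≤ M →
      ∃ D : ℤ, FormulaDefect L Ω (V.res L) (B.res L) 1 D ∧
        (IsCyclic (L.fixingSubgroup.map (AlgEquiv.restrictNormalHom (F := K) (K₁ := Ω) M)) →
          |D| ≤ C))
    {J : Type} [Fintype J] (r : J → ℕ)
    (θ : ∀ j, (M ≃ₐ[K] M) →* Matrix (Fin (r j)) (Fin (r j)) ℚ)
    (hθ : ∀ j, IsOpen (((θ j).comp
      (AlgEquiv.restrictNormalHom (F := K) (K₁ := Ω) M)).ker : Set (Ω ≃ₐ[K] Ω)))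
    (horth : ∀ i j, i ≠ j → ∑ x, (θ i x).trace * (θ j x).trace = 0)
    (n : J → ℕ) (hn : ∀ j, 0 < n j) (k : J → ℕ) (H : ∀ j, Fin (k j) → Subgroup (M ≃ₐ[K] M))
    (a : ∀ j, Fin (k j) → ℤ)
    (ha : ∀ j x, ∑ i, (a j i : ℚ) * (fixCount (H j i) x : ℚ) = n j * (θ j x).trace) :
    ∃ D : J → ℤ,
      (∀ j, FormulaDefect K Ω (V.twist ((θ j).comp
        (AlgEquiv.restrictNormalHom (F := K) (K₁ := Ω) M)) (hθ j)) B (n j) (D j)) ∧
      ∑ j, (D j : ℚ) ^ 2 * Fintype.card (M ≃ₐ[K] M) /
          ((n j : ℚ) ^ 2 * ∑ x, (θ j x).trace ^ 2) ≤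
        (C * ∏ q ∈ (Monoid.exponent (M ≃ₐ[K] M)).primeFactors, ((q : ℚ) + 1) / (q - 1)) ^ 2 := by
  classical
  have hG : IsGalois K Ω := H1Relation.isGalois
  have hfd : FiniteDimensional K M := H1Relation.finite_of_numberField M
  have halg : ∀ L : IntermediateField K Ω, Algebra.IsAlgebraic L Ω := fun L =>
    Algebra.IsAlgebraic.tower_top (K := K) L
  have hfinS : Finite (Subgroup (M ≃ₐ[K] M)) := inferInstance
  have : Fintype (Subgroup (M ≃ₐ[K] M)) := Fintype.ofFinite _
  let f : (Ω ≃ₐ[K] Ω) →* (M ≃ₐ[K] M) := AlgEquiv.restrictNormalHom (F := K) (K₁ := Ω) M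
  have hf : Function.Surjective f := AlgEquiv.restrictNormalHom_surjective Ω
  have hker : f.ker = M.fixingSubgroup := IntermediateField.restrictNormalHom_ker M
  have hMo : IsOpen (M.fixingSubgroup : Set (Ω ≃ₐ[K] Ω)) := M.fixingSubgroup_isOpen
  have hopen : ∀ S : Subgroup (M ≃ₐ[K] M), IsOpen (S.comap f : Set (Ω ≃ₐ[K] Ω)) := by
    intro S
    refine Subgroup.isOpen_mono ?_ hMo
    rw [← hker]
    exact fun g hg => by
      rw [Subgroup.mem_comap, (MonoidHom.mem_ker).1 hg]
      exact S.one_mem
  let E : Subgroup (M ≃ₐ[K] M) → IntermediateField K Ω := fun S =>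
    IntermediateField.fixedField (S.comap f)
  have hEfix : ∀ S, (E S).fixingSubgroup = S.comap f := fun S =>
    (Reduction.open_field (S.comap f) (hopen S)).2
  have hEfd : ∀ S, FiniteDimensional K (E S) := fun S =>
    (Reduction.open_field (S.comap f) (hopen S)).1
  have hEnf : ∀ S, NumberField (E S) := fun S => Reduction.numberField_of (E S)
  have hEbot : (E ⊥).fixingSubgroup = M.fixingSubgroup := by
    rw [hEfix, ← hker]
    rfl
  have hEle : ∀ S, (E ⊥).fixingSubgroup ≤ (E S).fixingSubgroup := by
    intro S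
    rw [hEfix, hEfix]
    exact Subgroup.comap_mono bot_le
  have hEM : ∀ S, E S ≤ M := by
    intro S
    have h1 : M.fixingSubgroup ≤ (E S).fixingSubgroup := hEbot ▸ hEle S
    have h2 := InfiniteGalois.fixedField_fixingSubgroup M
    have h3 := InfiniteGalois.fixedField_fixingSubgroup (E S)
    rw [← h2, ← h3]
    exact IntermediateField.fixedField_antitone h1
  have hnorm : (E ⊥).fixingSubgroup.Normal := by
    rw [hEbot, ← hker]
    infer_instance
  choose D hD hDC using fun S => h (E S) (hEM S)
  have hDk : ∀ S, BKdefect (E S) Ω (V.res (E S)) (B.res (E S)) 1 (D S) := fun S =>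
    (formulaDefect_iff (E S) Ω _ _ 1 _).1 (hD S)
  have hcount : ∀ (S : Subgroup (M ≃ₐ[K] M)) (g : Ω ≃ₐ[K] Ω),
      fixCount (E S).fixingSubgroup g = fixCount S (f g) := by
    intro S g
    rw [hEfix S]
    exact ArtinCompact.fixCount_comap f hf S g
  have hadd : ∀ b : Subgroup (M ≃ₐ[K] M) → ℤ,
      (∀ x, ∑ S, (b S : ℚ) * (fixCount S x : ℚ) = 0) → ∑ S, b S * D S = 0 := by
    intro b hb
    refine defect_zero K Ω V B E b (fun g => ?_) ⊥ hnorm hEle 1 D hDk
    simp only [hcount]
    exact hb (f g)
  let a' : J → Subgroup (M ≃ₐ[K] M) → ℤ := fun j S => ∑ i, if H j i = S then a j i else 0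
  have ha' : ∀ j x, ∑ S, (a' j S : ℚ) * (fixCount S x : ℚ) = n j * (θ j x).trace := by
    intro j x
    rw [← ha j x]
    simp only [a', Int.cast_sum, Finset.sum_mul]
    rw [Finset.sum_comm]
    refine Finset.sum_congr rfl fun i _ => ?_
    rw [Finset.sum_eq_single (H j i)]
    · rw [if_pos rfl]
    · intro S _ hS
      rw [if_neg hS.symm, Int.cast_zero, zero_mul]
    · intro hh
      exact absurd (Finset.mem_univ _) hh
  refine ⟨fun j => ∑ S, a' j S * D S, fun j => ?_, ?_⟩
  · rw [formulaDefect_iff]
    have key := defect_twist K Ω V B ((θ j).comp f) (hθ j) E (a' j) (n j) (hn j) (fun g => by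
      simp only [hcount]
      rw [ha' j (f g)]
      rfl) ⊥ hnorm (by
        rw [hEbot, ← hker]
        intro g hg
        rw [MonoidHom.mem_ker, MonoidHom.comp_apply, (MonoidHom.mem_ker).1 hg, map_one]) hEle 1 D
      hDk
    rwa [mul_one] at key
  · refine Parseval.parseval D hadd C (fun S hS => ?_) (fun j x => (θ j x).trace) n hn a' ha' horth
    have h1 : |D S| ≤ C := by
      apply hDC S
      have h2 : (E S).fixingSubgroup.map f = S := by
        rw [hEfix]
        exact Subgroup.map_comap_eq_self_of_surjective hf S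
      change IsCyclic ((E S).fixingSubgroup.map f)
      rw [h2]
      exact hS
    exact_mod_cast h1

end Pool.Agent.Results.MP_ec4e4b_nt.BoundedDefect
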