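import Pool.Agent.Helper79.BKH.HalfLocal
import Pool.Agent.BK.BridgeInd
import Pool.Agent.BK.Bridge
import Pool.Agent.BK.BridgeGal
import Pool.Agent.BK.ComplexGal
import Pool.Agent.Helper14.BKX.Main

/-!
One-sided inequalities (for example the nonvanishing of central values) for a family of Artin
twists with characters in a signed linear relation at the complex conjugations and at certain
local elements imply the order of vanishing formula of Bloch and Kato for all the twists, given the
formula over the totally complex, locally trivial fields.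
-/

open scoped Pointwise NumberField
open Polynomial IsDedekindDomain

namespace Pool.Agent.Results.MP_ec4e4b_nt.SignedTwists

open Pool.BK

/-- Let `V` be a system of representations of the Galois group of the number field `K`, `F / K` a
finite Galois extension, `F₁ / K` a finite extension, `T` a finite set of finite places of `K`, `N`
a positive integer and `X` a set of extensions of `K` with finitely many members of each degree.
Suppose that the formula (for a power of the L-function) holds over `K` for the system induced from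
the restriction of `V` to `L`, for every totally complex finite `L / K` not in `X` of degree
divisible by `N` such that `F L / L` is unramified at the finite places and completely split above
`T` and some finite Galois extension `M / K` containing `F₁` and `L` is cyclic over `L`. Let `θ j`,
`j` in a finite set `J`, be Artin representations and `e j` signs such that the one-sided inequality
`e j · ord ≤ e j · m · (dim H¹_f - dim H⁰)` holds for the twist of `V` by `θ j` (for `e j = 1` this
is the case if the L-function does not vanish at `0` and the twist has no invariants, for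
`e j = -1` if it has no pole and the Selmer group of Bloch and Kato vanishes), and let `c j` be
rational numbers with the signs `e j` such that `∑ c j · tr θ j` vanishes at every complex
conjugation and at every `σ` in a decomposition group such that the closed subgroup generated by `σ`
meets the inertia group outside the Galois group of `F`, or `σ` is nontrivial on `F` and the
decomposition group lies above `T`. Then the formula holds for the twist of `V` by every Artin
representation `θ₀` whose character is a rational combination of those of the `θ j` at all these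
elements (for example `θ₀ = θ j`): its L-function continues to a meromorphic function on a connected
open set that contains a right half plane and the point `0`, with the expected order at `0`. (Some
positive power of it continues to a neighbourhood of the half line `[0, ∞)`.) -/
theorem result (K : Type) [Field K] [NumberField K] (Ω : Type) [Field Ω] [Algebra K Ω]
    [IsAlgClosed Ω] [Algebra.IsAlgebraic K Ω] (V : LSystem (Ω ≃ₐ[K] Ω))
    (B : ∀ (p : ℕ) [Fact p.Prime], PeriodData (Ω ≃ₐ[K] Ω) (𝓞 Ω) p)
    (F : IntermediateField K Ω) [NumberField F] [Normal K F]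
    (F₁ : IntermediateField K Ω) [NumberField F₁]
    (T : Set (HeightOneSpectrum (𝓞 K))) (hT : T.Finite) (N : ℕ) (hN : 0 < N)
    (X : Set (IntermediateField K Ω))
    (hX : ∀ n : ℕ, 0 < n → {L | L ∈ X ∧ Module.finrank K L = n}.Finite)
    (h : ∀ (L : IntermediateField K Ω) [NumberField L], NumberField.IsTotallyComplex L →
      LocTriv F T L → L ∉ X → N ∣ Module.finrank K L → CyclicIn F₁ L →
      ∃ m : ℕ, 0 < m ∧ IndFormula K L Ω V B m)
    {J : Type} [Fintype J] (r : J → ℕ)
    (θ : ∀ j, (Ω ≃ₐ[K] Ω) →* Matrix (Fin (r j)) (Fin (r j)) ℚ)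
    (hθ : ∀ j, IsOpen ((θ j).ker : Set (Ω ≃ₐ[K] Ω)))
    (e : J → ℤ) (he : ∀ j, e j = 1 ∨ e j = -1)
    (hhalf : ∀ j, ∃ m : ℕ, 0 < m ∧ HalfFormula K Ω (V.twist (θ j) (hθ j)) B (e j) m)
    (c : J → ℚ) (hc : ∀ j, 0 < e j * c j)
    (hzero : ∀ σ : Ω ≃ₐ[K] Ω, IsConj σ ∨ IsLoc F T σ → ∑ j, c j * (θ j σ).trace = 0)
    {r₀ : ℕ} (θ₀ : (Ω ≃ₐ[K] Ω) →* Matrix (Fin r₀) (Fin r₀) ℚ)
    (hθ₀ : IsOpen (θ₀.ker : Set (Ω ≃ₐ[K] Ω))) (b : J → ℚ)
    (hb : ∀ σ : Ω ≃ₐ[K] Ω, IsConj σ ∨ IsLoc F T σ →
      (θ₀ σ).trace = ∑ j, b j * (θ j σ).trace) :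
    ExactFormula K Ω (V.twist θ₀ hθ₀) B ∧ ∃ m : ℕ, 0 < m ∧ Formula K Ω (V.twist θ₀ hθ₀) B m := by
  have halg : ∀ L : IntermediateField K Ω, Algebra.IsAlgebraic L Ω := fun L =>
    Algebra.IsAlgebraic.tower_top (K := K) L
  have hiff : ∀ (L : IntermediateField K Ω) [NumberField L],
      (∃ m : ℕ, 0 < m ∧ IndFormula K L Ω V B m) ↔ (∃ m : ℕ, 0 < m ∧ BKInd K L Ω V B m) :=
    fun L _ => exists_congr fun m => and_congr_right fun _ => indFormula_iff K L Ω V B m
  have h' : ∀ (L : IntermediateField K Ω) [NumberField L], NumberField.IsTotallyComplex L →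
      LocTriv F T L → L ∉ X → N ∣ Module.finrank K L →
      (∃ (W : Subgroup (Ω ≃ₐ[K] Ω)) (_ : W.Normal), IsOpen (W : Set (Ω ≃ₐ[K] Ω)) ∧
        W ≤ F₁.fixingSubgroup ∧ W ≤ L.fixingSubgroup ∧
        IsCyclic (L.fixingSubgroup.map (QuotientGroup.mk' W))) →
      ∃ m : ℕ, 0 < m ∧ BKInd K L Ω V B m := fun L _ h1 h2 h3 h4 h5 => (hiff L).1 (h L h1 h2 h3 h4
      (BridgeGal.exists_field (fun Γ _ => IsCyclic Γ)
        (fun Γ Γ' _ _ f hf hΓ => ComplexGal.cyclic_inj f hf hΓ) F₁ L h5))
  have key := half_local K Ω V B F F₁ T hT N hN X hX h' r θ hθ e he (fun j => by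
    obtain ⟨m, hm, P, hP, σ, U, Λ, hUo, hUσ, hUr, hmer, hprod, k, hk, hp⟩ := hhalf j
    refine ⟨m, k, hm, ⟨P, (eulerFamily_iff K Ω _ P).1 hP, σ, U, Λ, hUo, hUσ, hUr, hmer, hprod, hk⟩,
      fun p _ hfin => ?_⟩
    exact hp p _ ((Bridge.selmerDiff_iff _ _ _).2 ⟨hfin, rfl⟩)) c hc hzero
  obtain ⟨m, hm, hpow⟩ := reduction_local_gen K Ω V B F F₁ T hT N hN X hX h' r θ hθ key θ₀ hθ₀ b hb
  have hF := (formula_iff K Ω _ _ m).2 hpow
  exact ⟨exact_of_formula K Ω _ _ m hm hF, m, hm, hF⟩

end Pool.Agent.Results.MP_ec4e4b_nt.SignedTwists
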