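import Pool.Agent.Helper79.BKS.Approx
import Pool.Agent.Helper79.BKS.Defs
import Pool.Agent.BK.BridgeInd
import Pool.Agent.BK.Bridge
import Pool.Agent.BK.BridgeGal
import Pool.Agent.BK.ComplexGal
import Pool.Agent.Helper14.BKX.Main

/-!
Given the order of vanishing formula of Bloch and Kato over the totally complex, locally trivial
fields, it holds for a twist by an Artin representation as soon as it holds up to a sublinear error
for other twists whose characters are multiples of the given one at the complex conjugations and at
certain local elements, for example over the extensions in which the real places and finitely many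
finite places split completely.
-/

open scoped Pointwise NumberField
open Polynomial IsDedekindDomain

namespace Pool.Agent.Results.MP_ec4e4b_nt.SublinearError

open Pool.BK

/-- Let `V` be a system of representations of the Galois group of the number field `K`, `F / K` a
finite Galois extension, `F₁ / K` a finite extension, `T` a finite set of finite places of `K`, `N`
a positive integer and `X` a set of extensions of `K` with finitely many members of each degree.
Suppose that the formula (for a power of the L-function) holds over `K` for the system induced from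
the restriction of `V` to `L`, for every totally complex finite `L / K` not in `X` of degree
divisible by `N` such that `F L / L` is unramified at the finite places and completely split above
`T` and some finite Galois extension `M / K` containing `F₁` and `L` is cyclic over `L`. Let `θ₀` be
an Artin representation. Suppose that for every prime `p`, every `ε > 0` and each sign `e` there are
an Artin representation `θ` and a number `c > 0` such that the character of `θ` is `c` times that of
`θ₀` at every complex conjugation and at every `σ` in a decomposition group such that the closed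
subgroup generated by `σ` meets the inertia group outside the Galois group of `F`, or `σ` is
nontrivial on `F` and the decomposition group lies above `T`, and that for the twist of `V` by `θ`
the inequality `e · ord ≤ e · m · (dim H¹_f - dim H⁰) + ε c m` holds for some positive power `m` of
the L-function. (For example `θ` can be the tensor product of `θ₀` with the permutation
representation of a finite extension `E / K` in which the real places and the places which are
ramified in `F` or lie in `T` split completely, `c = [E : K]`: then the twist of `V` by `θ` is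
induced from the twist of `V` by `θ₀` over `E`, and the inequalities hold if along one sequence of
such `E` the orders of the L-functions are `o([E : K])` and along another one the dimensions of the
Selmer groups are.) Then the formula holds for the twist of `V` by `θ₀`: its L-function continues
to a meromorphic function on a connected open set that contains a right half plane and the point
`0`, with the expected order at `0`. (Some positive power of it continues to a neighbourhood of the
half line `[0, ∞)`.) -/
theorem result (K : Type) [Field K] [NumberField K] (Ω : Type) [Field Ω] [Algebra K Ω]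
    [IsAlgClosed Ω] [Algebra.IsAlgebraic K Ω] (V : LSystem (Ω ≃ₐ[K] Ω))
    (B : ∀ (p : ℕ) [Fact p.Prime], PeriodData (Ω ≃ₐ[K] Ω) (𝓞 Ω) p)
    (F : IntermediateField K Ω) [NumberField F] [Normal K F]
    (F₁ : IntermediateField K Ω) [NumberField F₁]
    (T : Set (HeightOneSpectrum (𝓞 K))) (hT : T.Finite) (N : ℕ) (hN : 0 < N)
    (X : Set (IntermediateField K Ω))
    (hX : ∀ n : ℕ, 0 < n → {L | L ∈ X ∧ Module.finrank K L = n}.Finite)
    (h : ∀ (L : IntermediateField K Ω) [NumberField L], NumberField.IsTotallyComplex L →
      LocTriv F T L → L ∉ X → N ∣ Module.finrank K L → CyclicIn F₁ L →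
      ∃ m : ℕ, 0 < m ∧ IndFormula K L Ω V B m)
    {r₀ : ℕ} (θ₀ : (Ω ≃ₐ[K] Ω) →* Matrix (Fin r₀) (Fin r₀) ℚ)
    (hθ₀ : IsOpen (θ₀.ker : Set (Ω ≃ₐ[K] Ω)))
    (herr : ∀ (p : ℕ) [Fact p.Prime] (ε : ℚ), 0 < ε → ∀ e : ℤ, e = 1 ∨ e = -1 → ∃ (r : ℕ)
      (θ : (Ω ≃ₐ[K] Ω) →* Matrix (Fin r) (Fin r) ℚ) (hθ : IsOpen (θ.ker : Set (Ω ≃ₐ[K] Ω)))
      (c : ℚ) (m : ℕ), 0 < c ∧ 0 < m ∧
        (∀ σ : Ω ≃ₐ[K] Ω, IsConj σ ∨ IsLoc F T σ → (θ σ).trace = c * (θ₀ σ).trace) ∧
        ErrorFormula K Ω (V.twist θ hθ) (B p) e m (ε * c * m)) :
    ExactFormula K Ω (V.twist θ₀ hθ₀) B ∧ ∃ m : ℕ, 0 < m ∧ Formula K Ω (V.twist θ₀ hθ₀) B m := by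
  have halg : ∀ L : IntermediateField K Ω, Algebra.IsAlgebraic L Ω := fun L =>
    Algebra.IsAlgebraic.tower_top (K := K) L
  have hiff : ∀ (L : IntermediateField K Ω) [NumberField L],
      (∃ m : ℕ, 0 < m ∧ IndFormula K L Ω V B m) ↔ (∃ m : ℕ, 0 < m ∧ BKInd K L Ω V B m) :=
    fun L _ => exists_congr fun m => and_congr_right fun _ => indFormula_iff K L Ω V B m
  have h' : ∀ (L : IntermediateField K Ω) [NumberField L], NumberField.IsTotallyComplex L →
      LocTriv F T L → L ∉ X → N ∣ Module.finrank K L →
      (∃ (W : Subgroup (Ω ≃ₐ[K] Ω)) (_ : W.Normal), IsOpen (W : Set (Ω ≃ₐ[K] Ω)) ∧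
        W ≤ F₁.fixingSubgroup ∧ W ≤ L.fixingSubgroup ∧
        IsCyclic (L.fixingSubgroup.map (QuotientGroup.mk' W))) →
      ∃ m : ℕ, 0 < m ∧ BKInd K L Ω V B m := fun L _ h1 h2 h3 h4 h5 => (hiff L).1 (h L h1 h2 h3 h4
      (BridgeGal.exists_field (fun Γ _ => IsCyclic Γ)
        (fun Γ Γ' _ _ f hf hΓ => ComplexGal.cyclic_inj f hf hΓ) F₁ L h5))
  obtain ⟨m, hm, hpow⟩ := approx_local K Ω V B F F₁ T hT N hN X hX h' θ₀ hθ₀
    (fun p _ ε hε e he => by
      obtain ⟨r, θ, hθ, c, m, hc, hm, htr, hE⟩ := herr p ε hε e he
      obtain ⟨k, hval, hle⟩ := errorFormula_val K Ω _ (B p) e m _ hE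
      exact ⟨r, θ, hθ, c, m, k, hc, hm, htr, hval, hle⟩)
  have hF := (formula_iff K Ω _ _ m).2 hpow
  exact ⟨exact_of_formula K Ω _ _ m hm hF, m, hm, hF⟩

end Pool.Agent.Results.MP_ec4e4b_nt.SublinearError
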