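import Pool.Agent.BK.ComplexGal
import Pool.Agent.BK.Bridge
import Pool.Agent.BK.BridgeGal
import Pool.Agent.Helper14.BKX.Main

/-!
The order of vanishing formula of Bloch and Kato over arbitrary finite extensions of a number
field follows from its validity over certain totally complex extensions and over finitely many
extensions that account for the real places.
-/

open scoped Pointwise NumberField
open Polynomial IsDedekindDomain

namespace Pool.Agent.Results.MP_ec4e4b_nt.TotallyComplex

open Pool.BK

/-- Let `V` be a system of representations of the Galois group of the number field `K`, `F` a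
finite extension of `K`, `N` a positive integer and `X` a set of extensions of `K` with
finitely many members of each degree. Suppose that the formula holds for `V` over every totally
complex finite `L / K` not in `X` of degree divisible by `N` such that `M / L` is cyclic for some
finite Galois extension `M / K` containing `F` and `L`, and over the fields `E i`, `i` in a finite
set. Let `L / K` be finite, and suppose that the function that sends a real embedding `v` of `K` to
the number of real embeddings of `L` above `v` is a rational combination of the corresponding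
functions of the fields `E i`. Then the formula holds over `L`: the L-function continues to a
meromorphic function on a connected open set that contains a right half plane and the point `0`,
with the expected order at `0`. (Some positive power of it continues to a neighbourhood of the half
line `[0, ∞)`.) -/
theorem result (K : Type) [Field K] [NumberField K] (Ω : Type) [Field Ω] [Algebra K Ω]
    [IsAlgClosed Ω] [Algebra.IsAlgebraic K Ω] (V : LSystem (Ω ≃ₐ[K] Ω))
    (B : ∀ (p : ℕ) [Fact p.Prime], PeriodData (Ω ≃ₐ[K] Ω) (𝓞 Ω) p)
    (F : IntermediateField K Ω) [NumberField F] (N : ℕ) (hN : 0 < N)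
    (X : Set (IntermediateField K Ω))
    (hX : ∀ n : ℕ, 0 < n → {L | L ∈ X ∧ Module.finrank K L = n}.Finite)
    (h : ∀ (L : IntermediateField K Ω) [NumberField L], NumberField.IsTotallyComplex L → L ∉ X →
      N ∣ Module.finrank K L → CyclicIn F L → Formula L Ω (V.res L) (fun p _ => (B p).res L) 1)
    {ι : Type} [Fintype ι] (E : ι → IntermediateField K Ω) [∀ i, NumberField (E i)]
    (hE : ∀ i, Formula (E i) Ω (V.res (E i)) (fun p _ => (B p).res (E i)) 1)
    (L : IntermediateField K Ω) [NumberField L] (n : ℕ) (hn : 0 < n) (a : ι → ℤ)
    (ha : ∀ v : K →+* ℝ, (n : ℤ) * (realCount K L v : ℤ) =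
      ∑ i, a i * (realCount K (E i) v : ℤ)) :
    ExactFormula L Ω (V.res L) (fun p _ => (B p).res L) ∧
      ∃ m : ℕ, 0 < m ∧ Formula L Ω (V.res L) (fun p _ => (B p).res L) m := by
  have halg : ∀ L : IntermediateField K Ω, Algebra.IsAlgebraic L Ω := fun L =>
    Algebra.IsAlgebraic.tower_top (K := K) L
  obtain ⟨m, hm, hpow⟩ := reduction_complex_gal K Ω V B N hN F X hX
    (fun L _ h1 h2 h3 h4 => (formula_iff L Ω _ _ 1).1 (h L h1 h2 h3
      (BridgeGal.exists_field (fun Γ _ => IsCyclic Γ)
        (fun Γ Γ' _ _ f hf hΓ => ComplexGal.cyclic_inj f hf hΓ) F L h4))) E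
    (fun i => (formula_iff (E i) Ω _ _ 1).1 (hE i)) L n hn a ha
  have hF := (formula_iff L Ω _ _ m).2 hpow
  exact ⟨exact_of_formula L Ω _ _ m hm hF, m, hm, hF⟩

end Pool.Agent.Results.MP_ec4e4b_nt.TotallyComplex
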